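import Mathlib

set_option autoImplicit false

open MeasureTheory Set Filter Topology
open scoped ContDiff Gradient RealInnerProductSpace

namespace Pool.Agent.X100.HW

variable {n : ℕ}

/-- shorthand for the Euclidean space -/
abbrev E (n : ℕ) := EuclideanSpace ℝ (Fin n)

lemma fderiv_sum (w : E n → ℝ) (x : E n) :
    fderiv ℝ w x x = ∑ i, x i * fderiv ℝ w x (EuclideanSpace.single i 1) := by
  have h : x = ∑ i, x i • (EuclideanSpace.single i (1 : ℝ) : E n) := by
    ext j
    simp [Finset.sum_apply, Pi.single_apply]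
  conv_lhs => rw [show fderiv ℝ w x x = fderiv ℝ w x (∑ i, x i • (EuclideanSpace.single i (1 : ℝ) : E n)) by rw [← h]]
  rw [map_sum]
  simp

/-- integration by parts against the radial field -/
lemma ibp {h w : E n → ℝ} (hh : ContDiff ℝ ∞ h) (hw : ContDiff ℝ ∞ w) (hc : HasCompactSupport w) :
    ∫ x, h x * fderiv ℝ w x x = - ∫ x, w x * (n * h x + fderiv ℝ h x x) := by
  have hhd : Differentiable ℝ h := hh.differentiable (by simp)
  have hwd : Differentiable ℝ w := hw.differentiable (by simp)
  have hwf : Continuous (fderiv ℝ w) := hw.continuous_fderiv (by simp)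
  have hhf : Continuous (fderiv ℝ h) := hh.continuous_fderiv (by simp)
  have hcoord : ∀ i : Fin n, ContDiff ℝ ∞ (fun x : E n => x i) := fun i =>
    (EuclideanSpace.proj i : E n →L[ℝ] ℝ).contDiff
  have hi : ∀ i : Fin n, Integrable fun x : E n =>
      (h x * x i) * fderiv ℝ w x (EuclideanSpace.single i 1) := by
    intro i
    refine Continuous.integrable_of_hasCompactSupport ?_ ?_
    · exact (hh.continuous.mul (hcoord i).continuous).mul (hwf.clm_apply continuous_const)
    · exact (hc.fderiv_apply ℝ _).mul_left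
  have hd : ∀ i : Fin n, ∀ x : E n, fderiv ℝ (fun x : E n => h x * x i) x (EuclideanSpace.single i 1) =
      h x + x i * fderiv ℝ h x (EuclideanSpace.single i 1) := by
    intro i x
    have h1 : HasFDerivAt (fun x : E n => x i) (EuclideanSpace.proj i : E n →L[ℝ] ℝ) x :=
      (EuclideanSpace.proj i : E n →L[ℝ] ℝ).hasFDerivAt
    have h2 := (hhd x).hasFDerivAt.mul h1
    have h3 : fderiv ℝ (fun x : E n => h x * x i) x = h x • (EuclideanSpace.proj i : E n →L[ℝ] ℝ) +
      x i • fderiv ℝ h x := h2.fderiv
    rw [h3]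
    simp
  have hparts : ∀ i : Fin n, ∫ x : E n, (h x * x i) * fderiv ℝ w x (EuclideanSpace.single i 1) =
      - ∫ x : E n, (h x + x i * fderiv ℝ h x (EuclideanSpace.single i 1)) * w x := by
    intro i
    have hs : ContDiff ℝ ∞ (fun x : E n => h x * x i) := hh.mul (hcoord i)
    rw [integral_mul_fderiv_eq_neg_fderiv_mul_of_integrable (f := fun x : E n => h x * x i) (g := w)
      (v := EuclideanSpace.single i 1) ?_ (hi i) ?_ (fun x _ => (hs.differentiable (by simp)) x)
      (fun x _ => hwd x)]
    · congr 1
      refine integral_congr_ae (ae_of_all _ fun x => ?_)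
      simp only [hd]
    · refine Continuous.integrable_of_hasCompactSupport ?_ hc.mul_left
      exact ((hs.continuous_fderiv (by simp)).clm_apply continuous_const).mul hw.continuous
    · refine Continuous.integrable_of_hasCompactSupport ?_ hc.mul_left
      exact hs.continuous.mul hw.continuous
  have hJ : ∀ i : Fin n, Integrable fun x : E n =>
      (h x + x i * fderiv ℝ h x (EuclideanSpace.single i 1)) * w x := by
    intro i
    refine Continuous.integrable_of_hasCompactSupport ?_ hc.mul_left
    exact (hh.continuous.add ((hcoord i).continuous.mul (hhf.clm_apply continuous_const))).mul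
      hw.continuous
  calc ∫ x, h x * fderiv ℝ w x x
      = ∫ x : E n, ∑ i, (h x * x i) * fderiv ℝ w x (EuclideanSpace.single i 1) := by
        refine integral_congr_ae (ae_of_all _ fun x => ?_)
        simp only
        rw [fderiv_sum, Finset.mul_sum]
        refine Finset.sum_congr rfl fun i _ => by ring
    _ = ∑ i, ∫ x : E n, (h x * x i) * fderiv ℝ w x (EuclideanSpace.single i 1) :=
        integral_finsetSum _ fun i _ => hi i
    _ = ∑ i, - ∫ x : E n, (h x + x i * fderiv ℝ h x (EuclideanSpace.single i 1)) * w x :=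
        Finset.sum_congr rfl fun i _ => hparts i
    _ = - ∫ x : E n, ∑ i, (h x + x i * fderiv ℝ h x (EuclideanSpace.single i 1)) * w x := by
        rw [integral_finsetSum _ fun i _ => hJ i, Finset.sum_neg_distrib]
    _ = _ := by
        congr 1
        refine integral_congr_ae (ae_of_all _ fun x => ?_)
        simp only
        rw [← Finset.sum_mul, Finset.sum_add_distrib, ← fderiv_sum]
        simp
        ring

/-- the weight `1 + |x|^2` -/
noncomputable def g (x : E n) : ℝ := 1 + ‖x‖ ^ 2

lemma g_pos (x : E n) : 0 < g x := by unfold g; positivity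

lemma g_ge (x : E n) : 1 ≤ g x := by unfold g; nlinarith [sq_nonneg ‖x‖]

lemma g_contDiff : ContDiff ℝ ∞ (g (n := n)) := contDiff_const.add (contDiff_norm_sq ℝ)

lemma gs_contDiff (s : ℝ) : ContDiff ℝ ∞ (fun x : E n => g x ^ s) :=
  g_contDiff.rpow_const_of_ne fun x => (g_pos x).ne'

lemma gs_hasFDerivAt (s : ℝ) (x : E n) :
    HasFDerivAt (fun x : E n => g x ^ s) ((2 * s * g x ^ (s - 1)) • (innerSL ℝ x)) x := by
  have h1 : HasFDerivAt (g (n := n)) ((2 : ℝ) • (innerSL ℝ x)) x := by
    have h := (hasStrictFDerivAt_norm_sq x).hasFDerivAt.const_add 1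
    refine h.congr_fderiv ?_
    ext v; simp
  have h2 := h1.rpow_const (p := s) (Or.inl (g_pos x).ne')
  refine h2.congr_fderiv ?_
  ext v
  simp
  ring

lemma gs_fderiv_self (s : ℝ) (x : E n) :
    fderiv ℝ (fun x : E n => g x ^ s) x x = 2 * s * g x ^ (s - 1) * ‖x‖ ^ 2 := by
  rw [(gs_hasFDerivAt s x).fderiv]
  simp

end Pool.Agent.X100.HW
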