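import Mathlib
import Pool.Agent.X100.HW.Base

set_option autoImplicit false

open MeasureTheory Set Filter Topology
open scoped ContDiff Gradient RealInnerProductSpace

namespace Pool.Agent.X100.HW

variable {n : ℕ}

lemma inner_gradient {u : E n → ℝ} (x v : E n) : inner ℝ (gradient u x) v = fderiv ℝ u x v := by
  unfold gradient
  rw [InnerProductSpace.toDual_symm_apply]

/-- the gradient of `g^(-a) v` -/
lemma grad_prod {v : E n → ℝ} (hv : ContDiff ℝ ∞ v) (a : ℝ) (x : E n) :
    gradient (fun x => g x ^ (-a) * v x) x =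
      g x ^ (-a) • gradient v x + (-(2 * a * g x ^ (-a - 1) * v x)) • x := by
  apply ext_inner_right ℝ
  intro w
  have h1 := (gs_hasFDerivAt (-a) x).mul ((hv.differentiable (by simp)) x).hasFDerivAt
  have h2 : fderiv ℝ (fun x => g x ^ (-a) * v x) x = g x ^ (-a) • fderiv ℝ v x +
      v x • ((2 * -a * g x ^ (-a - 1)) • (innerSL ℝ x)) := h1.fderiv
  rw [inner_gradient, h2, inner_add_left, inner_smul_left, inner_smul_left, inner_gradient]
  simp
  ring

lemma norm_grad_prod {v : E n → ℝ} (hv : ContDiff ℝ ∞ v) (a : ℝ) (x : E n) :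
    ‖gradient (fun x => g x ^ (-a) * v x) x‖ ^ 2 =
      g x ^ (-2 * a) * ‖gradient v x‖ ^ 2 - 4 * a * g x ^ (-2 * a - 1) * v x * fderiv ℝ v x x +
        4 * a ^ 2 * g x ^ (-2 * a - 2) * ‖x‖ ^ 2 * v x ^ 2 := by
  rw [grad_prod hv, norm_add_sq_real, norm_smul, norm_smul, inner_smul_left, inner_smul_right,
    inner_gradient, mul_pow, mul_pow, Real.norm_eq_abs, Real.norm_eq_abs, sq_abs, sq_abs]
  have hg := g_pos x
  have e1 : g x ^ (-2 * a) = (g x ^ (-a)) ^ 2 := by
    rw [← Real.rpow_natCast, ← Real.rpow_mul hg.le]; congr 1; push_cast; ring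
  have e2 : g x ^ (-2 * a - 1) = g x ^ (-a) * g x ^ (-a - 1) := by
    rw [← Real.rpow_add hg]; congr 1; ring
  have e3 : g x ^ (-2 * a - 2) = (g x ^ (-a - 1)) ^ 2 := by
    rw [← Real.rpow_natCast, ← Real.rpow_mul hg.le]; congr 1; push_cast; ring
  rw [e1, e2, e3]
  simp
  ring

lemma gradient_continuous {v : E n → ℝ} (hv : ContDiff ℝ ∞ v) : Continuous (gradient v) := by
  unfold gradient
  exact (InnerProductSpace.toDual ℝ (E n)).symm.continuous.comp (hv.continuous_fderiv (by simp))

lemma gradient_compact {v : E n → ℝ} (hc : HasCompactSupport v) : HasCompactSupport (gradient v) := by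
  unfold gradient
  exact (hc.fderiv ℝ).comp_left (g := (InnerProductSpace.toDual ℝ (E n)).symm) (by simp)

/-- the zero order coefficient of the ground state transform -/
noncomputable def coef (n : ℕ) (α a : ℝ) (x : E n) : ℝ :=
  2 * a * (n + 2 * (α - a - 1) * (‖x‖ ^ 2 / g x))

/-- the ground state identity -/
lemma ground {v : E n → ℝ} (hv : ContDiff ℝ ∞ v) (hc : HasCompactSupport v) (α a : ℝ) :
    ∫ x, g x ^ α * ‖gradient (fun x => g x ^ (-a) * v x) x‖ ^ 2 =
      (∫ x, g x ^ (α - 2 * a) * ‖gradient v x‖ ^ 2) +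
        ∫ x, g x ^ (α - 1 - 2 * a) * coef n α a x * v x ^ 2 := by
  have hv2 : ContDiff ℝ ∞ (fun x => v x ^ 2) := hv.pow 2
  have hc2 : HasCompactSupport (fun x => v x ^ 2) := hc.comp_left (g := fun t : ℝ => t ^ 2) (by simp)
  have hI := ibp (gs_contDiff (n := n) (α - 2 * a - 1)) hv2 hc2
  have hgc : ∀ s : ℝ, Continuous fun x : E n => g x ^ s := fun s => (gs_contDiff s).continuous
  have i1 : Integrable fun x => g x ^ (α - 2 * a) * ‖gradient v x‖ ^ 2 := by
    refine Continuous.integrable_of_hasCompactSupport ?_ ?_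
    · exact (hgc _).mul ((gradient_continuous hv).norm.pow 2)
    · exact ((gradient_compact hc).comp_left (g := fun t : E n => ‖t‖ ^ 2) (by simp)).mul_left
  have i2 : Integrable fun x => g x ^ (α - 2 * a - 1) * fderiv ℝ (fun x => v x ^ 2) x x := by
    refine Continuous.integrable_of_hasCompactSupport ?_ ?_
    · exact (hgc _).mul ((hv2.continuous_fderiv (by simp)).clm_apply continuous_id)
    · refine HasCompactSupport.mul_left ?_
      refine (hc2.fderiv ℝ).mono fun x hx => ?_
      intro h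
      exact hx (by simp only; rw [h]; rfl)
  have i3 : Integrable fun x => g x ^ (α - 2 * a - 2) * ‖x‖ ^ 2 * v x ^ 2 := by
    refine Continuous.integrable_of_hasCompactSupport ?_ ?_
    · exact ((hgc _).mul (continuous_norm.pow 2)).mul (hv.continuous.pow 2)
    · exact hc2.mul_left
  have hfd : ∀ x, fderiv ℝ (fun x => v x ^ 2) x x = 2 * v x * fderiv ℝ v x x := by
    intro x
    have h1 := ((hv.differentiable (by simp)) x).hasFDerivAt.pow 2
    have h2 : fderiv ℝ (fun x => v x ^ 2) x = _ := h1.fderiv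
    rw [h2]
    simp
  have e1 : ∀ x : E n, g x ^ α * ‖gradient (fun x => g x ^ (-a) * v x) x‖ ^ 2 =
      g x ^ (α - 2 * a) * ‖gradient v x‖ ^ 2 +
        (-(2 * a) * (g x ^ (α - 2 * a - 1) * fderiv ℝ (fun x => v x ^ 2) x x) +
          4 * a ^ 2 * (g x ^ (α - 2 * a - 2) * ‖x‖ ^ 2 * v x ^ 2)) := by
    intro x
    have hg := g_pos x
    rw [norm_grad_prod hv, hfd]
    have f1 : g x ^ α * g x ^ (-2 * a) = g x ^ (α - 2 * a) := by
      rw [← Real.rpow_add hg]; congr 1; ring
    have f2 : g x ^ α * g x ^ (-2 * a - 1) = g x ^ (α - 2 * a - 1) := by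
      rw [← Real.rpow_add hg]; congr 1; ring
    have f3 : g x ^ α * g x ^ (-2 * a - 2) = g x ^ (α - 2 * a - 2) := by
      rw [← Real.rpow_add hg]; congr 1; ring
    rw [← f1, ← f2, ← f3]
    ring
  simp_rw [e1]
  have i23 : Integrable fun x => -(2 * a) * (g x ^ (α - 2 * a - 1) * fderiv ℝ (fun x => v x ^ 2) x x) +
      4 * a ^ 2 * (g x ^ (α - 2 * a - 2) * ‖x‖ ^ 2 * v x ^ 2) := (i2.const_mul _).add (i3.const_mul _)
  rw [integral_add i1 i23,
    integral_add (i2.const_mul _) (i3.const_mul _), integral_const_mul, integral_const_mul, hI]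
  congr 1
  have i4 : Integrable fun x => v x ^ 2 * (n * g x ^ (α - 2 * a - 1) +
      fderiv ℝ (fun x : E n => g x ^ (α - 2 * a - 1)) x x) := by
    refine Continuous.integrable_of_hasCompactSupport ?_ hc2.mul_right
    exact (hv.continuous.pow 2).mul ((continuous_const.mul (hgc _)).add
      (((gs_contDiff _).continuous_fderiv (by simp)).clm_apply continuous_id))
  rw [mul_neg, ← neg_mul, neg_neg, ← integral_const_mul, ← integral_const_mul,
    ← integral_add (i4.const_mul _) (i3.const_mul _)]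
  refine integral_congr_ae (ae_of_all _ fun x => ?_)
  simp only
  have hg := g_pos x
  rw [gs_fderiv_self]
  have f1 : g x ^ (α - 2 * a - 1) = g x ^ (α - 1 - 2 * a) := by congr 1; ring
  have f2 : g x ^ (α - 2 * a - 2) = g x ^ (α - 1 - 2 * a) / g x := by
    rw [div_eq_mul_inv, ← Real.rpow_neg_one (g x), ← Real.rpow_add hg]; congr 1; ring
  have f3 : g x ^ (α - 2 * a - 1 - 1) = g x ^ (α - 1 - 2 * a) / g x := by
    rw [← f2]; congr 1; ring
  rw [f3, f2, f1]
  unfold coef
  field_simp
  ring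

end Pool.Agent.X100.HW
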