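import Mathlib
import Pool.Agent.X100.HW.Id

set_option autoImplicit false

open MeasureTheory Set Filter Topology
open scoped ContDiff Gradient RealInnerProductSpace

namespace Pool.Agent.X100.HW

variable {n : ℕ}

lemma t_mem (x : E n) : 0 ≤ ‖x‖ ^ 2 / g x ∧ ‖x‖ ^ 2 / g x ≤ 1 := by
  have hg := g_pos x
  refine ⟨by positivity, ?_⟩
  rw [div_le_one hg]
  unfold g
  linarith

/-- the ground state transform gives a lower bound -/
lemma lower {u : E n → ℝ} (hu : ContDiff ℝ ∞ u) (hc : HasCompactSupport u) (α a c : ℝ)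
    (hcoef : ∀ x : E n, c ≤ coef n α a x) :
    c * ∫ x, g x ^ (α - 1) * u x ^ 2 ≤ ∫ x, g x ^ α * ‖gradient u x‖ ^ 2 := by
  have hv : ContDiff ℝ ∞ (fun x => g x ^ a * u x) := (gs_contDiff a).mul hu
  have hvc : HasCompactSupport (fun x => g x ^ a * u x) := hc.mul_left
  have huv : (fun x => g x ^ (-a) * (g x ^ a * u x)) = u := by
    funext x
    rw [← mul_assoc, ← Real.rpow_add (g_pos x)]
    simp
  have h := ground hv hvc α a
  rw [huv] at h
  rw [h]
  have h1 : 0 ≤ ∫ x, g x ^ (α - 2 * a) * ‖gradient (fun x => g x ^ a * u x) x‖ ^ 2 := by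
    refine integral_nonneg fun x => ?_
    have := g_pos x
    positivity
  have hgc : ∀ s : ℝ, Continuous fun x : E n => g x ^ s := fun s => (gs_contDiff s).continuous
  have hc2 : HasCompactSupport (fun x => u x ^ 2) := hc.comp_left (g := fun t : ℝ => t ^ 2) (by simp)
  have hvc2 : HasCompactSupport (fun x => (g x ^ a * u x) ^ 2) :=
    hvc.comp_left (g := fun t : ℝ => t ^ 2) (by simp)
  have hcc : Continuous (coef n α a) := by
    unfold coef
    refine continuous_const.mul (continuous_const.add (continuous_const.mul ?_))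
    exact (continuous_norm.pow 2).div g_contDiff.continuous fun x => (g_pos x).ne'
  have h2 : c * ∫ x, g x ^ (α - 1) * u x ^ 2 ≤
      ∫ x, g x ^ (α - 1 - 2 * a) * coef n α a x * (g x ^ a * u x) ^ 2 := by
    rw [← integral_const_mul]
    refine integral_mono ?_ ?_ fun x => ?_
    · refine Integrable.const_mul ?_ _
      exact Continuous.integrable_of_hasCompactSupport ((hgc _).mul (hu.continuous.pow 2)) hc2.mul_left
    · refine Continuous.integrable_of_hasCompactSupport ?_ hvc2.mul_left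
      exact ((hgc _).mul hcc).mul (((hgc _).mul hu.continuous).pow 2)
    · simp only
      have hg := g_pos x
      have e : g x ^ (α - 1 - 2 * a) * coef n α a x * (g x ^ a * u x) ^ 2 =
          coef n α a x * (g x ^ (α - 1) * u x ^ 2) := by
        have e1 : g x ^ (α - 1) = g x ^ (α - 1 - 2 * a) * (g x ^ a) ^ 2 := by
          rw [← Real.rpow_natCast (g x ^ a), ← Real.rpow_mul hg.le, ← Real.rpow_add hg]
          congr 1; push_cast; ring
        rw [e1]; ring
      rw [e]
      exact mul_le_mul_of_nonneg_right (hcoef x) (by positivity)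
  linarith

lemma lower_one {u : E n → ℝ} (hu : ContDiff ℝ ∞ u) (hc : HasCompactSupport u) (α : ℝ)
    (h1 : -((n : ℝ) - 2) / 2 ≤ α) (h2 : α ≤ 1 + n / 2) :
    ((n + 2 * α - 2) ^ 2 / 4) * ∫ x, g x ^ (α - 1) * u x ^ 2 ≤ ∫ x, g x ^ α * ‖gradient u x‖ ^ 2 := by
  refine lower hu hc α ((n + 2 * α - 2) / 4) _ fun x => ?_
  obtain ⟨t0, t1⟩ := t_mem x
  unfold coef
  set t := ‖x‖ ^ 2 / g x
  have ha : 0 ≤ (n + 2 * α - 2) / 4 := by linarith
  set a := (n + 2 * α - 2) / 4 with hadef
  have e : (n + 2 * α - 2) ^ 2 / 4 = 2 * a * (2 * a) := by rw [hadef]; ring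
  rw [e]
  refine mul_le_mul_of_nonneg_left ?_ (by linarith)
  have hneg : α - a - 1 ≤ 0 := by rw [hadef]; linarith
  nlinarith

lemma lower_two {u : E n → ℝ} (hu : ContDiff ℝ ∞ u) (hc : HasCompactSupport u) (α : ℝ) :
    (2 * n * (α - 1)) * ∫ x, g x ^ (α - 1) * u x ^ 2 ≤ ∫ x, g x ^ α * ‖gradient u x‖ ^ 2 := by
  refine lower hu hc α (α - 1) _ fun x => ?_
  unfold coef
  have : α - (α - 1) - 1 = 0 := by ring
  rw [this]
  apply le_of_eq
  ring

end Pool.Agent.X100.HW
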