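import Mathlib
import Pool.Agent.X100.HW.Low

set_option autoImplicit false

open MeasureTheory Set Filter Topology
open scoped ContDiff Gradient RealInnerProductSpace

namespace Pool.Agent.X100.HW

variable {n : ℕ}

/-- base bump -/
noncomputable def bump (n : ℕ) : ContDiffBump (0 : E n) := ⟨1, 2, by norm_num, by norm_num⟩

/-- rescaled cutoff -/
noncomputable def chi (k : ℕ) (x : E n) : ℝ := bump n (((k : ℝ) + 1)⁻¹ • x)

lemma chi_contDiff (k : ℕ) : ContDiff ℝ ∞ (chi (n := n) k) :=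
  (bump n).contDiff.comp (contDiff_const_smul _)

lemma chi_eq_zero (k : ℕ) {x : E n} (hx : 2 * ((k : ℝ) + 1) ≤ ‖x‖) : chi k x = 0 := by
  unfold chi
  apply (bump n).zero_of_le_dist
  rw [dist_zero_right, norm_smul, norm_inv, Real.norm_eq_abs, abs_of_pos (by positivity : (0 : ℝ) < k + 1)]
  show (2 : ℝ) ≤ _
  rw [inv_mul_eq_div, le_div_iff₀ (by positivity)]
  exact hx

lemma chi_eq_one (k : ℕ) {x : E n} (hx : ‖x‖ ≤ (k : ℝ) + 1) : chi k x = 1 := by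
  unfold chi
  apply (bump n).one_of_mem_closedBall
  rw [Metric.mem_closedBall, dist_zero_right, norm_smul, norm_inv, Real.norm_eq_abs,
    abs_of_pos (by positivity : (0 : ℝ) < k + 1)]
  show _ ≤ (1 : ℝ)
  rw [inv_mul_eq_div, div_le_one (by positivity)]
  exact hx

lemma chi_nonneg (k : ℕ) (x : E n) : 0 ≤ chi k x := (bump n).nonneg

lemma chi_le_one (k : ℕ) (x : E n) : chi k x ≤ 1 := (bump n).le_one

lemma chi_compact (k : ℕ) : HasCompactSupport (chi (n := n) k) := by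
  refine HasCompactSupport.intro (isCompact_closedBall (0 : E n) (2 * ((k : ℝ) + 1))) fun x hx => ?_
  apply chi_eq_zero
  rw [Metric.mem_closedBall, dist_zero_right, not_le] at hx
  exact hx.le

lemma chi_fderiv_zero_small (k : ℕ) {x : E n} (hx : ‖x‖ < (k : ℝ) + 1) : fderiv ℝ (chi k) x = 0 := by
  have h : chi k =ᶠ[𝓝 x] fun _ => (1 : ℝ) := by
    filter_upwards [Metric.isOpen_ball.mem_nhds (show x ∈ Metric.ball (0 : E n) ((k : ℝ) + 1) by
      simpa using hx)] with y hy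
    apply chi_eq_one
    simp only [Metric.mem_ball, dist_zero_right] at hy
    exact hy.le
  rw [h.fderiv_eq]
  simp

lemma chi_fderiv_zero_large (k : ℕ) {x : E n} (hx : 2 * ((k : ℝ) + 1) < ‖x‖) : fderiv ℝ (chi k) x = 0 := by
  have h : chi k =ᶠ[𝓝 x] fun _ => (0 : ℝ) := by
    filter_upwards [(isOpen_lt continuous_const continuous_norm).mem_nhds
      (show x ∈ {y : E n | 2 * ((k : ℝ) + 1) < ‖y‖} from hx)] with y hy
    apply chi_eq_zero
    exact (le_of_lt hy)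
  rw [h.fderiv_eq]
  simp

lemma bump_bound : ∃ M : ℝ, 0 ≤ M ∧ ∀ y : E n, ‖fderiv ℝ (bump n) y‖ ≤ M := by
  have h1 : Continuous (fderiv ℝ (bump n)) := 
    ((bump n).contDiff (n := (⊤ : ℕ∞))).continuous_fderiv (by simp)
  have h2 : HasCompactSupport (fderiv ℝ (bump n)) := (bump n).hasCompactSupport.fderiv ℝ
  obtain ⟨M, hM⟩ := h2.exists_bound_of_continuous h1
  exact ⟨M, (norm_nonneg _).trans (hM 0), hM⟩

lemma chi_fderiv (k : ℕ) (x : E n) : fderiv ℝ (chi k) x =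
    ((k : ℝ) + 1)⁻¹ • fderiv ℝ (bump n) (((k : ℝ) + 1)⁻¹ • x) := by
  have h1 : HasFDerivAt (fun x : E n => ((k : ℝ) + 1)⁻¹ • x)
    (((k : ℝ) + 1)⁻¹ • ContinuousLinearMap.id ℝ (E n)) x := (((k : ℝ) + 1)⁻¹ • ContinuousLinearMap.id ℝ (E n)).hasFDerivAt
  have h2 : HasFDerivAt (bump n) (fderiv ℝ (bump n) (((k : ℝ) + 1)⁻¹ • x)) (((k : ℝ) + 1)⁻¹ • x) :=
    (((bump n).contDiff (n := (⊤ : ℕ∞))).differentiable (by simp) _).hasFDerivAt
  have h3 := h2.comp x h1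
  have h4 : fderiv ℝ (chi k) x = (fderiv ℝ (bump n) (((k : ℝ) + 1)⁻¹ • x)).comp
    (((k : ℝ) + 1)⁻¹ • ContinuousLinearMap.id ℝ (E n)) := h3.fderiv
  rw [h4]
  ext v
  simp

/-- the weighted gradient bound -/
lemma chi_bound : ∃ M : ℝ, 0 ≤ M ∧ ∀ (k : ℕ) (x : E n), ‖fderiv ℝ (chi k) x‖ * ‖x‖ ≤ 2 * M ∧
    g x * ‖fderiv ℝ (chi k) x‖ ^ 2 ≤ 5 * M ^ 2 := by
  obtain ⟨M, hM0, hM⟩ := bump_bound (n := n)
  refine ⟨M, hM0, fun k x => ?_⟩
  have hk : (0 : ℝ) < (k : ℝ) + 1 := by positivity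
  have hk1 : (1 : ℝ) ≤ (k : ℝ) + 1 := by linarith [Nat.cast_nonneg (α := ℝ) k]
  rcases lt_or_ge (2 * ((k : ℝ) + 1)) ‖x‖ with hx | hx
  · rw [chi_fderiv_zero_large k hx]
    simp
    exact ⟨hM0, by positivity⟩
  · have hf : ‖fderiv ℝ (chi k) x‖ ≤ M / ((k : ℝ) + 1) := by
      rw [chi_fderiv, norm_smul, norm_inv, Real.norm_eq_abs, abs_of_pos hk, inv_mul_eq_div]
      gcongr
      exact hM _
    constructor
    · calc ‖fderiv ℝ (chi k) x‖ * ‖x‖ ≤ (M / ((k : ℝ) + 1)) * (2 * ((k : ℝ) + 1)) := by gcongr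
        _ = 2 * M := by field_simp
    · have hg : g x ≤ 5 * ((k : ℝ) + 1) ^ 2 := by
        unfold g
        have : ‖x‖ ^ 2 ≤ (2 * ((k : ℝ) + 1)) ^ 2 := by gcongr
        nlinarith
      calc g x * ‖fderiv ℝ (chi k) x‖ ^ 2 ≤ (5 * ((k : ℝ) + 1) ^ 2) * (M / ((k : ℝ) + 1)) ^ 2 := by
            gcongr
        _ = 5 * M ^ 2 := by field_simp

lemma norm_gradient {u : E n → ℝ} (x : E n) : ‖gradient u x‖ = ‖fderiv ℝ u x‖ := by
  unfold gradient
  simp

lemma chi_tendsto (x : E n) : ∀ᶠ k in atTop, chi k x = 1 ∧ fderiv ℝ (chi k) x = 0 := by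
  obtain ⟨N, hN⟩ := exists_nat_gt ‖x‖
  filter_upwards [eventually_ge_atTop N] with k hk
  have h1 : ‖x‖ < (k : ℝ) + 1 := by
    have : (N : ℝ) ≤ k := by exact_mod_cast hk
    linarith
  exact ⟨chi_eq_one k h1.le, chi_fderiv_zero_small k h1⟩

lemma gs_integrable {s : ℝ} (hs : (n : ℝ) / 2 < s) : Integrable fun x : E n => g x ^ (-s) := by
  have h := integrable_rpow_neg_one_add_norm_sq (E := E n) (μ := volume) (r := 2 * s)
    (by rw [finrank_euclideanSpace_fin]; linarith)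
  refine h.congr (ae_of_all _ fun x => ?_)
  simp only [g]
  congr 1
  ring

end Pool.Agent.X100.HW
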