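import Mathlib
import Pool.Agent.X100.HW.Up

set_option autoImplicit false

open MeasureTheory Set Filter Topology
open scoped ContDiff Gradient RealInnerProductSpace

namespace Pool.Agent.X100.HW

variable {n : ℕ}

lemma gs_sub_one_mul (s : ℝ) (x : E n) : g x ^ (-s - 1) * ‖x‖ ^ 2 = g x ^ (-s) * (‖x‖ ^ 2 / g x) := by
  have hg := g_pos x
  rw [sub_eq_add_neg, Real.rpow_add hg, Real.rpow_neg_one]
  ring

lemma gs_sub_one_le (s : ℝ) (x : E n) : g x ^ (-s - 1) * ‖x‖ ^ 2 ≤ g x ^ (-s) := by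
  have hg := g_pos x
  rw [gs_sub_one_mul]
  exact mul_le_of_le_one_right (by positivity) (t_mem x).2

lemma gs_sub_one_nonneg (s : ℝ) (x : E n) : 0 ≤ g x ^ (-s - 1) * ‖x‖ ^ 2 := by
  have hg := g_pos x
  positivity

lemma gcont (s : ℝ) : Continuous fun x : E n => g x ^ s := (gs_contDiff s).continuous

/-- the recursion between the two moments -/
lemma moment {s : ℝ} (hs : (n : ℝ) / 2 < s) :
    n * ∫ x : E n, g x ^ (-s) = 2 * s * ∫ x : E n, g x ^ (-s - 1) * ‖x‖ ^ 2 := by
  obtain ⟨M, hM0, hM⟩ := chi_bound (n := n)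
  have hint := gs_integrable hs
  have hs0 : 0 ≤ s := by
    have : (0 : ℝ) ≤ (n : ℝ) / 2 := by positivity
    linarith
  have l1 : Tendsto (fun k : ℕ => ∫ x : E n, g x ^ (-s) * fderiv ℝ (chi k) x x) atTop
      (𝓝 (∫ x : E n, (0 : ℝ))) := by
    refine tendsto_integral_of_dominated_convergence (fun x : E n => 2 * M * g x ^ (-s)) ?_ ?_ ?_ ?_
    · intro k
      refine Continuous.aestronglyMeasurable ?_
      exact (gcont _).mul (((chi_contDiff k).continuous_fderiv (by simp)).clm_apply continuous_id)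
    · exact hint.const_mul _
    · intro k
      refine ae_of_all _ fun x => ?_
      have hg := g_pos x
      rw [norm_mul, Real.norm_eq_abs, abs_of_pos (Real.rpow_pos_of_pos hg _), mul_comm]
      refine mul_le_mul_of_nonneg_right ?_ (by positivity)
      exact ((fderiv ℝ (chi k) x).le_opNorm x).trans (hM k x).1
    · refine ae_of_all _ fun x => ?_
      refine tendsto_const_nhds.congr' ?_
      filter_upwards [chi_tendsto x] with k hk
      rw [hk.2]
      simp
  have l2 : Tendsto (fun k : ℕ => ∫ x : E n, chi k x *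
      (n * g x ^ (-s) + fderiv ℝ (fun x : E n => g x ^ (-s)) x x)) atTop
      (𝓝 (∫ x : E n, (n * g x ^ (-s) + fderiv ℝ (fun x : E n => g x ^ (-s)) x x))) := by
    refine tendsto_integral_of_dominated_convergence (fun x : E n => (n + 2 * s) * g x ^ (-s)) ?_ ?_ ?_ ?_
    · intro k
      refine Continuous.aestronglyMeasurable ?_
      exact (chi_contDiff k).continuous.mul ((continuous_const.mul (gcont _)).add
        (((gs_contDiff _).continuous_fderiv (by simp)).clm_apply continuous_id))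
    · exact hint.const_mul _
    · intro k
      refine ae_of_all _ fun x => ?_
      have hg := g_pos x
      rw [norm_mul, Real.norm_eq_abs, abs_of_nonneg (chi_nonneg k x), gs_fderiv_self]
      have h1 : ‖(n : ℝ) * g x ^ (-s) + 2 * -s * g x ^ (-s - 1) * ‖x‖ ^ 2‖ ≤ (n + 2 * s) * g x ^ (-s) := by
        have h2 := gs_sub_one_le s x
        have h3 := gs_sub_one_nonneg s x
        have h4 : (0 : ℝ) ≤ (n : ℝ) * g x ^ (-s) := by positivity
        have h5 : s * (g x ^ (-s - 1) * ‖x‖ ^ 2) ≤ s * g x ^ (-s) := mul_le_mul_of_nonneg_left h2 hs0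
        have h6 : 0 ≤ s * (g x ^ (-s - 1) * ‖x‖ ^ 2) := mul_nonneg hs0 h3
        rw [Real.norm_eq_abs, abs_le]
        constructor <;> nlinarith
      exact (mul_le_of_le_one_left (norm_nonneg _) (chi_le_one k x)).trans h1
    · refine ae_of_all _ fun x => ?_
      refine tendsto_const_nhds.congr' ?_
      filter_upwards [chi_tendsto x] with k hk
      rw [hk.1]
      simp
  have l3 : Tendsto (fun k : ℕ => ∫ x : E n, g x ^ (-s) * fderiv ℝ (chi k) x x) atTop
      (𝓝 (-∫ x : E n, (n * g x ^ (-s) + fderiv ℝ (fun x : E n => g x ^ (-s)) x x))) := by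
    refine l2.neg.congr fun k => ?_
    rw [← ibp (gs_contDiff (-s)) (chi_contDiff k) (chi_compact k)]
  have h := tendsto_nhds_unique l1 l3
  rw [integral_zero] at h
  have hT : Integrable fun x : E n => g x ^ (-s - 1) * ‖x‖ ^ 2 := by
    refine hint.mono' ((gcont _).mul (continuous_norm.pow 2)).aestronglyMeasurable (ae_of_all _ fun x => ?_)
    rw [Real.norm_eq_abs, abs_of_nonneg (gs_sub_one_nonneg s x)]
    exact gs_sub_one_le s x
  have e : ∫ x : E n, (n * g x ^ (-s) + fderiv ℝ (fun x : E n => g x ^ (-s)) x x) =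
      n * (∫ x : E n, g x ^ (-s)) - 2 * s * ∫ x : E n, g x ^ (-s - 1) * ‖x‖ ^ 2 := by
    rw [← integral_const_mul, ← integral_const_mul, ← integral_sub (hint.const_mul _) (hT.const_mul _)]
    refine integral_congr_ae (ae_of_all _ fun x => ?_)
    simp only
    rw [gs_fderiv_self]
    ring
  rw [e] at h
  linarith

/-- limit of the denominators -/
lemma den_lim {α a : ℝ} (hs : (n : ℝ) / 2 < 2 * a - α + 1) :
    Tendsto (fun k : ℕ => ∫ x : E n, g x ^ (α - 1) * (g x ^ (-a) * chi k x) ^ 2) atTop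
      (𝓝 (∫ x : E n, g x ^ (-(2 * a - α + 1)))) := by
  have hint := gs_integrable hs
  refine tendsto_integral_of_dominated_convergence (fun x : E n => g x ^ (-(2 * a - α + 1))) ?_ hint ?_ ?_
  · intro k
    refine Continuous.aestronglyMeasurable ?_
    exact (gcont _).mul (((gcont _).mul (chi_contDiff k).continuous).pow 2)
  · intro k
    refine ae_of_all _ fun x => ?_
    have hg := g_pos x
    have e : g x ^ (α - 1) * (g x ^ (-a) * chi k x) ^ 2 = g x ^ (-(2 * a - α + 1)) * chi k x ^ 2 := by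
      have e1 : g x ^ (-(2 * a - α + 1)) = g x ^ (α - 1) * (g x ^ (-a)) ^ 2 := by
        rw [← Real.rpow_natCast (g x ^ (-a)), ← Real.rpow_mul hg.le, ← Real.rpow_add hg]
        congr 1; push_cast; ring
      rw [e1]; ring
    rw [e, Real.norm_eq_abs, abs_of_nonneg (by positivity)]
    refine mul_le_of_le_one_right (by positivity) ?_
    exact pow_le_one₀ (chi_nonneg k x) (chi_le_one k x)
  · refine ae_of_all _ fun x => ?_
    refine tendsto_const_nhds.congr' ?_
    filter_upwards [chi_tendsto x] with k hk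
    have hg := g_pos x
    rw [hk.1, mul_one, ← Real.rpow_natCast (g x ^ (-a)), ← Real.rpow_mul hg.le, ← Real.rpow_add hg]
    congr 1; push_cast; ring

/-- limit of the numerators -/
lemma num_lim {α a : ℝ} (hs : (n : ℝ) / 2 < 2 * a - α + 1) :
    Tendsto (fun k : ℕ => ∫ x : E n, g x ^ α * ‖gradient (fun x => g x ^ (-a) * chi k x) x‖ ^ 2) atTop
      (𝓝 (∫ x : E n, 4 * a ^ 2 * (g x ^ (-(2 * a - α + 1) - 1) * ‖x‖ ^ 2))) := by
  obtain ⟨M, hM0, hM⟩ := chi_bound (n := n)
  have hint := gs_integrable hs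
  have key : ∀ (k : ℕ) (x : E n), g x ^ α * ‖gradient (fun x => g x ^ (-a) * chi k x) x‖ ^ 2 =
      g x ^ (-(2 * a - α + 1)) * (g x * ‖fderiv ℝ (chi k) x‖ ^ 2) -
      4 * a * g x ^ (-(2 * a - α + 1)) * chi k x * fderiv ℝ (chi k) x x +
      4 * a ^ 2 * (g x ^ (-(2 * a - α + 1) - 1) * ‖x‖ ^ 2) * chi k x ^ 2 := by
    intro k x
    have hg := g_pos x
    rw [norm_grad_prod (chi_contDiff k), norm_gradient]
    have f1 : g x ^ (-(2 * a - α + 1)) * g x = g x ^ α * g x ^ (-2 * a) := by
      rw [← Real.rpow_add hg]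
      nth_rewrite 2 [← Real.rpow_one (g x)]
      rw [← Real.rpow_add hg]; congr 1; ring
    have f2 : g x ^ (-(2 * a - α + 1)) = g x ^ α * g x ^ (-2 * a - 1) := by
      rw [← Real.rpow_add hg]; congr 1; ring
    have f3 : g x ^ (-(2 * a - α + 1) - 1) = g x ^ α * g x ^ (-2 * a - 2) := by
      rw [← Real.rpow_add hg]; congr 1; ring
    rw [← mul_assoc, f1, f3, f2]
    ring
  refine tendsto_integral_of_dominated_convergence
    (fun x : E n => (5 * M ^ 2 + 8 * |a| * M + 4 * a ^ 2) * g x ^ (-(2 * a - α + 1))) ?_ ?_ ?_ ?_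
  · intro k
    refine Continuous.aestronglyMeasurable ?_
    refine (gcont _).mul ((gradient_continuous ?_).norm.pow 2)
    exact (gs_contDiff _).mul (chi_contDiff k)
  · exact hint.const_mul _
  · intro k
    refine ae_of_all _ fun x => ?_
    have hg := g_pos x
    have hP : 0 < g x ^ (-(2 * a - α + 1)) := Real.rpow_pos_of_pos hg _
    rw [Real.norm_eq_abs, abs_of_nonneg (by positivity), key]
    have h1 := (hM k x).2
    have h2 : |fderiv ℝ (chi k) x x| ≤ 2 * M :=
      ((fderiv ℝ (chi k) x).le_opNorm x).trans (hM k x).1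
    have h3 := gs_sub_one_le (2 * a - α + 1) x
    have h3' := gs_sub_one_nonneg (2 * a - α + 1) x
    have c0 := chi_nonneg k x
    have c1 := chi_le_one k x
    have h4 : g x ^ (-(2 * a - α + 1)) * (g x * ‖fderiv ℝ (chi k) x‖ ^ 2) ≤
        g x ^ (-(2 * a - α + 1)) * (5 * M ^ 2) := by gcongr
    have h5 : -(4 * a * g x ^ (-(2 * a - α + 1)) * chi k x * fderiv ℝ (chi k) x x) ≤
        8 * |a| * M * g x ^ (-(2 * a - α + 1)) := by
      refine (neg_le_abs _).trans ?_
      rw [abs_mul, abs_mul, abs_mul, abs_mul, abs_of_pos hP, abs_of_nonneg c0]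
      have : |(4 : ℝ)| = 4 := by norm_num
      rw [this]
      calc 4 * |a| * g x ^ (-(2 * a - α + 1)) * chi k x * |fderiv ℝ (chi k) x x|
          ≤ 4 * |a| * g x ^ (-(2 * a - α + 1)) * 1 * (2 * M) := by gcongr
        _ = _ := by ring
    have h6 : 4 * a ^ 2 * (g x ^ (-(2 * a - α + 1) - 1) * ‖x‖ ^ 2) * chi k x ^ 2 ≤
        4 * a ^ 2 * g x ^ (-(2 * a - α + 1)) := by
      have c2 : chi k x ^ 2 ≤ 1 := pow_le_one₀ c0 c1
      calc 4 * a ^ 2 * (g x ^ (-(2 * a - α + 1) - 1) * ‖x‖ ^ 2) * chi k x ^ 2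
          ≤ 4 * a ^ 2 * (g x ^ (-(2 * a - α + 1))) * 1 := by gcongr
        _ = _ := by ring
    linarith
  · refine ae_of_all _ fun x => ?_
    refine tendsto_const_nhds.congr' ?_
    filter_upwards [chi_tendsto x] with k hk
    rw [key, hk.1, hk.2]
    simp

lemma J_pos {s : ℝ} (hs : (n : ℝ) / 2 < s) : 0 < ∫ x : E n, g x ^ (-s) := by
  have hint := gs_integrable hs
  rw [integral_pos_iff_support_of_nonneg (fun x => (Real.rpow_pos_of_pos (g_pos x) _).le) hint]
  have : Function.support (fun x : E n => g x ^ (-s)) = Set.univ := by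
    ext x
    simp [(Real.rpow_pos_of_pos (g_pos x) _).ne']
  rw [this]
  exact isOpen_univ.measure_pos volume univ_nonempty

/-- upper bound for every admissible exponent -/
lemma upper {α c : ℝ}
    (hc : ∀ u : E n → ℝ, ContDiff ℝ ∞ u → HasCompactSupport u → u ≠ 0 →
      c * ∫ x, g x ^ (α - 1) * u x ^ 2 ≤ ∫ x, g x ^ α * ‖gradient u x‖ ^ 2)
    {a : ℝ} (hs : (n : ℝ) / 2 < 2 * a - α + 1) : c ≤ 2 * n * a ^ 2 / (2 * a - α + 1) := by
  have h1 := (den_lim (n := n) hs).const_mul c
  have h2 := num_lim (n := n) hs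
  have h3 := le_of_tendsto_of_tendsto' h1 h2 fun k => by
    refine hc _ ((gs_contDiff _).mul (chi_contDiff k)) (chi_compact k).mul_left ?_
    intro h
    have := congrFun h 0
    simp only [Pi.zero_apply, mul_eq_zero] at this
    rcases this with h0 | h0
    · exact (Real.rpow_pos_of_pos (g_pos (0 : E n)) _).ne' h0
    · rw [chi_eq_one k (by simp; positivity)] at h0
      exact one_ne_zero h0
  rw [integral_const_mul] at h3
  have h4 := moment (n := n) hs
  have hJ := J_pos (n := n) hs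
  have hspos : 0 < 2 * a - α + 1 := by
    have : (0 : ℝ) ≤ (n : ℝ) / 2 := by positivity
    linarith
  rw [le_div_iff₀ hspos]
  set J := ∫ x : E n, g x ^ (-(2 * a - α + 1))
  set T := ∫ x : E n, g x ^ (-(2 * a - α + 1) - 1) * ‖x‖ ^ 2
  set s := 2 * a - α + 1
  have h5 : c * s * J ≤ 2 * n * a ^ 2 * J := by
    have e1 : c * s * J = s * (c * J) := by ring
    have e2 : 2 * n * a ^ 2 * J = s * (4 * a ^ 2 * T) := by
      have : 2 * n * a ^ 2 * J = 2 * a ^ 2 * (n * J) := by ring
      rw [this, h4]; ring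
    rw [e1, e2]
    exact mul_le_mul_of_nonneg_left h3 hspos.le
  exact le_of_mul_le_mul_right h5 hJ

end Pool.Agent.X100.HW
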